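import Pool.Agent.Q174.CY.Col2

/-!
# Chromatic number and rank: symmetric groups and products of quasirandom groups

Let a group act on a finite graph `G` by automorphisms, with at most `k` orbits of vertices, and let
`r` be the real rank of the adjacency matrix. Then `log₂ χ(G) ≤ log₂ k + O(log^4 r)` if the group is
a symmetric group, an alternating group, or a product of any number of quasirandom groups, e.g. of
any number of perfect groups of bounded order.
-/

set_option autoImplicit false

namespace Pool.Agent.Results.MP_3bd889_lc.GroupSymmetry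

open Classical in
/-- every finite graph on which `Γ` acts by automorphisms with at most `k` orbits of vertices is
`k 2^c(t)`-colourable, where `t = ⌊log₂ r⌋` and `r` is the real rank of the adjacency matrix -/
def ChiRank (Γ : Type) [Group Γ] (c : ℕ → ℕ) : Prop :=
  ∀ (V : Type) [Fintype V] [MulAction Γ V] (G : SimpleGraph V) (k : ℕ) (b : Fin k → V),
    (∀ (g : Γ) u v, G.Adj (g • u) (g • v) ↔ G.Adj u v) → (∀ v, ∃ j, ∃ g : Γ, g • b j = v) →
    G.Colorable (k * 2 ^ c (Nat.log 2 (G.adjMatrix ℝ).rank))

/-- no linear characters, and `|K| ≤ (dim V)^a` for every nontrivial representation `V` of `K` -/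
def QuasiRandom (a : ℕ) (K : Type) [Group K] : Prop :=
  commutator K = ⊤ ∧ ∀ (V : Type) [AddCommGroup V] [Module ℂ V] [FiniteDimensional ℂ V]
    (ρ : Representation ℂ K V), (∃ g, ρ g ≠ 1) → Nat.card K ≤ Module.finrank ℂ V ^ a

theorem result :
    -- (1) symmetric groups
    (∀ n : ℕ, ChiRank (Equiv.Perm (Fin n)) fun t => 6 * (t + 3) ^ 4) ∧
    -- (2) alternating groups
    (∀ n : ℕ, ChiRank (alternatingGroup (Fin n)) fun t => 6 * (t + 4) ^ 4) ∧
    -- (3) products of any number of quasirandom groups
    (∀ (a m : ℕ) (K : Fin m → Type) [∀ i, Group (K i)] [∀ i, Finite (K i)],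
      (∀ i, QuasiRandom a (K i)) → ChiRank (∀ i, K i) fun t => a * (t + 1) ^ 4) ∧
    -- (4) products of any number of small perfect groups
    (∀ (a m : ℕ) (K : Fin m → Type) [∀ i, Group (K i)] [∀ i, Finite (K i)],
      (∀ i, commutator (K i) = ⊤ ∧ Nat.card (K i) ≤ 2 ^ a) →
      ChiRank (∀ i, K i) fun t => a * (t + 1) ^ 4) := by
  refine ⟨fun n => ?_, fun n => ?_, fun a m K _ _ hK => ?_, fun a m K _ _ hK => ?_⟩
  · intro V _ _ G k b hG hb
    exact Pool.Agent.Q174.CY.colorable_orb G hG b hb fun f hf h1 =>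
      Pool.Agent.Q174.CY.cls_sym hf h1
  · intro V _ _ G k b hG hb
    exact Pool.Agent.Q174.CY.colorable_orb G hG b hb fun f hf h1 =>
      Pool.Agent.Q174.CY.cls_alt hf h1
  · intro V _ _ G k b hG hb
    exact Pool.Agent.Q174.CY.colorable_orb G hG b hb fun f hf h1 =>
      Pool.Agent.Q174.CY.cls_prod hf hK h1
  · intro V _ _ G k b hG hb
    exact Pool.Agent.Q174.CY.colorable_orb G hG b hb fun f hf h1 =>
      Pool.Agent.Q174.CY.cls_prod hf (fun i =>
        Pool.Agent.Q174.CY.quasi_of_perfect _ _ (hK i).1 (hK i).2) h1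

end Pool.Agent.Results.MP_3bd889_lc.GroupSymmetry
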