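import Pool.Agent.Q174.AF.Cor

/-!
# Chromatic number and rank: graphs with intersection-closed traces on a row basis

Let `G` be a finite graph, and let `e : V → {0,1}^n` be 0/1 features of the vertices whose image is
closed under the coordinatewise AND (or under OR), such that each neighbourhood `[u ~ v]` is a real
affine function of `e(u)`. Then `log₂ χ(G) ≤ 1620 ⌈log₂ (n+3)⌉^6 + 1`. In particular this holds with
`n = r = rank(A_G)` if for some basis `B` of the row space consisting of `r` rows, the family of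
traces `N(u) ∩ B` is closed under intersection (or under union).
-/

set_option autoImplicit false

namespace Pool.Agent.Results.MP_3bd889_lc.IntersectionClosedTraces

open Finset Pool.Agent.Q174.TD

lemma colorable_of_prot {V : Type} (G : SimpleGraph V) (F : V → V → Bool)
    (hF : ∀ u v, F u v = true ↔ G.Adj u v) {c : ℕ} {A : Set V}
    (h : Prot F c A A) : ∃ col : V → Fin (2 ^ c), ∀ u ∈ A, ∀ v ∈ A, G.Adj u v → col u ≠ col v := by
  classical
  have key : ∀ (c : ℕ) (A B : Set V), Prot F c A B →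
      ∃ col : V → Fin (2 ^ c), ∀ u ∈ A ∩ B, ∀ v ∈ A ∩ B, G.Adj u v → col u ≠ col v := by
    intro c A B h
    induction h with
    | const c A B b hb =>
      refine ⟨fun _ => ⟨0, by positivity⟩, ?_⟩
      rintro u ⟨hu, hu'⟩ v ⟨hv, hv'⟩ huv
      exfalso
      have h1 : b = true := by
        rw [← hb u hu v hv']
        exact (hF u v).mpr huv
      have h2 : F u u = true := by rw [hb u hu u hu', h1]
      exact G.loopless.irrefl u ((hF u u).mp h2)
    | alice c A B S _ _ ih₁ ih₂ =>
      obtain ⟨c₁, h₁⟩ := ih₁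
      obtain ⟨c₂, h₂⟩ := ih₂
      refine ⟨fun v => if v ∈ S then ⟨(c₁ v).val, by
        have := (c₁ v).isLt
        rw [pow_succ]; omega⟩ else ⟨2 ^ c + (c₂ v).val, by
        have := (c₂ v).isLt
        rw [pow_succ]; omega⟩, ?_⟩
      rintro u ⟨hu, hu'⟩ v ⟨hv, hv'⟩ huv heq
      by_cases h1 : u ∈ S <;> by_cases h2 : v ∈ S
      · simp only [h1, h2, if_true, Fin.mk.injEq] at heq
        exact h₁ u ⟨⟨hu, h1⟩, hu'⟩ v ⟨⟨hv, h2⟩, hv'⟩ huv (Fin.ext heq)
      · simp only [h1, h2, if_true, if_false, Fin.mk.injEq] at heq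
        have := (c₁ u).isLt
        omega
      · simp only [h1, h2, if_true, if_false, Fin.mk.injEq] at heq
        have := (c₁ v).isLt
        omega
      · simp only [h1, h2, if_false, Fin.mk.injEq, Nat.add_left_cancel_iff] at heq
        exact h₂ u ⟨⟨hu, h1⟩, hu'⟩ v ⟨⟨hv, h2⟩, hv'⟩ huv (Fin.ext heq)
    | bob c A B S _ _ ih₁ ih₂ =>
      obtain ⟨c₁, h₁⟩ := ih₁
      obtain ⟨c₂, h₂⟩ := ih₂
      refine ⟨fun v => if v ∈ S then ⟨(c₁ v).val, by
        have := (c₁ v).isLt
        rw [pow_succ]; omega⟩ else ⟨2 ^ c + (c₂ v).val, by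
        have := (c₂ v).isLt
        rw [pow_succ]; omega⟩, ?_⟩
      rintro u ⟨hu, hu'⟩ v ⟨hv, hv'⟩ huv heq
      by_cases h1 : u ∈ S <;> by_cases h2 : v ∈ S
      · simp only [h1, h2, if_true, Fin.mk.injEq] at heq
        exact h₁ u ⟨hu, ⟨hu', h1⟩⟩ v ⟨hv, ⟨hv', h2⟩⟩ huv (Fin.ext heq)
      · simp only [h1, h2, if_true, if_false, Fin.mk.injEq] at heq
        have := (c₁ u).isLt
        omega
      · simp only [h1, h2, if_true, if_false, Fin.mk.injEq] at heq
        have := (c₁ v).isLt
        omega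
      · simp only [h1, h2, if_false, Fin.mk.injEq, Nat.add_left_cancel_iff] at heq
        exact h₂ u ⟨hu, ⟨hu', h1⟩⟩ v ⟨hv, ⟨hv', h2⟩⟩ huv (Fin.ext heq)
  obtain ⟨col, h1⟩ := key c A A h
  exact ⟨col, fun u hu v hv => h1 u ⟨hu, hu⟩ v ⟨hv, hv⟩⟩

/-- the family of the vectors `e u` is closed under the coordinatewise operation `op` -/
def ClosedUnder (op : Bool → Bool → Bool) {V : Type} {n : ℕ} (e : V → Fin n → Bool) : Prop :=
  ∀ u v, ∃ w, ∀ i, e w i = op (e u i) (e v i)

open Classical in
/-- the 0/1 vector of the neighbourhood of `v` is a real affine function of the features `e` -/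
def AffineIn {V : Type} (G : SimpleGraph V) {n : ℕ} (e : V → Fin n → Bool) (v : V) : Prop :=
  ∃ (c : ℝ) (w : Fin n → ℝ), ∀ u,
    (if G.Adj u v then (1 : ℝ) else 0) = c + ∑ i, if e u i then w i else 0

open Classical in
theorem result :
    -- features which are closed under AND or under OR
    (∀ (V : Type) [Fintype V] (G : SimpleGraph V) (n : ℕ) (e : V → Fin n → Bool),
      ClosedUnder and e ∨ ClosedUnder or e → (∀ v, AffineIn G e v) →
      G.Colorable (2 ^ (1620 * (Nat.clog 2 (n + 3)) ^ 6 + 1))) ∧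
    -- traces on a basis of the row space
    (∀ (V : Type) [Fintype V] (G : SimpleGraph V) (b : Fin (G.adjMatrix ℝ).rank → V),
      Submodule.span ℝ (Set.range fun i => G.adjMatrix ℝ (b i)) =
        Submodule.span ℝ (Set.range fun v => G.adjMatrix ℝ v) →
      ClosedUnder and (fun u i => decide (G.Adj u (b i))) ∨
        ClosedUnder or (fun u i => decide (G.Adj u (b i))) →
      G.Colorable (2 ^ (1620 * (Nat.clog 2 ((G.adjMatrix ℝ).rank + 3)) ^ 6 + 1))) := by
  have main : ∀ (V : Type) [Fintype V] (G : SimpleGraph V) (n : ℕ) (e : V → Fin n → Bool),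
      ClosedUnder and e ∨ ClosedUnder or e → (∀ v, AffineIn G e v) →
      G.Colorable (2 ^ (1620 * (Nat.clog 2 (n + 3)) ^ 6 + 1)) := by
    intro V _ G n e he hG
    have hF : ∀ y, ∃ (c : ℝ) (w : Fin n → ℝ), ∀ x,
        (if decide (G.Adj x y) = true then (1 : ℝ) else 0) = c + ∑ i, if e x i then w i else 0 := by
      intro y
      obtain ⟨c, w, h⟩ := hG y
      refine ⟨c, w, fun x => ?_⟩
      rw [← h x]
      simp only [decide_eq_true_eq]
    have hp : Prot (fun u v => decide (G.Adj u v)) (1620 * (Nat.clog 2 (n + 3)) ^ 6 + 1)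
        Set.univ Set.univ := by
      rcases he with he | he
      · exact Pool.Agent.Q174.AF.feat_prot e he _ hF
      · exact Pool.Agent.Q174.AF.feat_prot_or e he _ hF
    obtain ⟨col, hcol⟩ := colorable_of_prot G (fun u v => decide (G.Adj u v))
      (fun u v => by simp only [decide_eq_true_eq]) hp
    exact ⟨SimpleGraph.Coloring.mk col fun {u v} huv =>
      hcol u (Set.mem_univ _) v (Set.mem_univ _) huv⟩
  refine ⟨main, ?_⟩
  intro V _ G b hb he
  refine main V G _ (fun u i => decide (G.Adj u (b i))) he fun v => ?_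
  have h1 : G.adjMatrix ℝ v ∈ Submodule.span ℝ (Set.range fun i => G.adjMatrix ℝ (b i)) := by
    rw [hb]
    exact Submodule.subset_span ⟨v, rfl⟩
  rw [Submodule.mem_span_range_iff_exists_fun] at h1
  obtain ⟨w, hw⟩ := h1
  refine ⟨0, w, fun u => ?_⟩
  have h2 := congrFun hw u
  rw [Finset.sum_apply] at h2
  simp only [Pi.smul_apply, SimpleGraph.adjMatrix_apply, smul_eq_mul, mul_ite, mul_one,
    mul_zero] at h2
  rw [zero_add]
  simp only [decide_eq_true_eq, G.adj_comm u]
  rw [← h2]

end Pool.Agent.Results.MP_3bd889_lc.IntersectionClosedTraces
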