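import Pool.Agent.Q174.IS.Rank

/-!
# Chromatic number and rank: Cayley graphs of inverse semigroups with trivial subgroups

Let `M` be a finite inverse semigroup all of whose subgroups are trivial and let `C` be a subset of
`M`. Let `G` be a graph whose vertices `v` are labelled by elements `m v` of `M` (all elements occur,
repetitions are allowed), such that `u` and `v` are adjacent if and only if `(m u)⁻¹ (m v)` lies in
`C`: a blow-up of the Cayley graph of `M` with connection set `C`. Then
`log₂ χ(G) ≤ 1620 ⌈log₂ (r^2 + 3)⌉^6 + 1`, `r` being the real rank of the adjacency matrix.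

Proof. As all subgroups are trivial, `M` is a meet semilattice for the natural order, and the entries
of the adjacency matrix are linear functions of at most `r^2` features `[t ≤ x]` of a row `x`, which
are closed under AND. A protocol with `c` bits for the adjacency function gives a colouring with
`2^c` colours.
-/

set_option autoImplicit false

namespace Pool.Agent.Results.MP_3bd889_lc.InverseSemigroupGraphs

open Finset Pool.Agent.Q174.TD

/-- each element of the semigroup `M` has exactly one generalized inverse: `M` is an inverse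
semigroup -/
def IsInverse (M : Type) [Semigroup M] : Prop := ∀ x : M, ∃! y, x * y * x = x ∧ y * x * y = y

/-- all subgroups of the inverse semigroup `M` are trivial: an element which commutes with an
inverse of it is idempotent -/
def TrivialSubgroups (M : Type) [Semigroup M] : Prop :=
  ∀ x y : M, x * y * x = x → y * x * y = y → x * y = y * x → x * x = x

open Classical in
/-- the real rank of the adjacency matrix of `G` -/
noncomputable def rank {V : Type} [Fintype V] (G : SimpleGraph V) : ℕ := (G.adjMatrix ℝ).rank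

lemma colorable_of_prot {V : Type} (G : SimpleGraph V) (F : V → V → Bool)
    (hF : ∀ u v, F u v = true ↔ G.Adj u v) {c : ℕ} {A : Set V}
    (h : Prot F c A A) : ∃ col : V → Fin (2 ^ c), ∀ u ∈ A, ∀ v ∈ A, G.Adj u v → col u ≠ col v := by
  classical
  have key : ∀ (c : ℕ) (A B : Set V), Prot F c A B →
      ∃ col : V → Fin (2 ^ c), ∀ u ∈ A ∩ B, ∀ v ∈ A ∩ B, G.Adj u v → col u ≠ col v := by
    intro c A B h
    induction h with
    | const c A B b hb =>
      refine ⟨fun _ => ⟨0, by positivity⟩, ?_⟩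
      rintro u ⟨hu, hu'⟩ v ⟨hv, hv'⟩ huv
      exfalso
      have h1 : b = true := by
        rw [← hb u hu v hv']
        exact (hF u v).mpr huv
      have h2 : F u u = true := by rw [hb u hu u hu', h1]
      exact G.loopless.irrefl u ((hF u u).mp h2)
    | alice c A B S _ _ ih₁ ih₂ =>
      obtain ⟨c₁, h₁⟩ := ih₁
      obtain ⟨c₂, h₂⟩ := ih₂
      refine ⟨fun v => if v ∈ S then ⟨(c₁ v).val, by
        have := (c₁ v).isLt
        rw [pow_succ]; omega⟩ else ⟨2 ^ c + (c₂ v).val, by
        have := (c₂ v).isLt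
        rw [pow_succ]; omega⟩, ?_⟩
      rintro u ⟨hu, hu'⟩ v ⟨hv, hv'⟩ huv heq
      by_cases h1 : u ∈ S <;> by_cases h2 : v ∈ S
      · simp only [h1, h2, if_true, Fin.mk.injEq] at heq
        exact h₁ u ⟨⟨hu, h1⟩, hu'⟩ v ⟨⟨hv, h2⟩, hv'⟩ huv (Fin.ext heq)
      · simp only [h1, h2, if_true, if_false, Fin.mk.injEq] at heq
        have := (c₁ u).isLt
        omega
      · simp only [h1, h2, if_true, if_false, Fin.mk.injEq] at heq
        have := (c₁ v).isLt
        omega
      · simp only [h1, h2, if_false, Fin.mk.injEq, Nat.add_left_cancel_iff] at heq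
        exact h₂ u ⟨⟨hu, h1⟩, hu'⟩ v ⟨⟨hv, h2⟩, hv'⟩ huv (Fin.ext heq)
    | bob c A B S _ _ ih₁ ih₂ =>
      obtain ⟨c₁, h₁⟩ := ih₁
      obtain ⟨c₂, h₂⟩ := ih₂
      refine ⟨fun v => if v ∈ S then ⟨(c₁ v).val, by
        have := (c₁ v).isLt
        rw [pow_succ]; omega⟩ else ⟨2 ^ c + (c₂ v).val, by
        have := (c₂ v).isLt
        rw [pow_succ]; omega⟩, ?_⟩
      rintro u ⟨hu, hu'⟩ v ⟨hv, hv'⟩ huv heq
      by_cases h1 : u ∈ S <;> by_cases h2 : v ∈ S
      · simp only [h1, h2, if_true, Fin.mk.injEq] at heq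
        exact h₁ u ⟨hu, ⟨hu', h1⟩⟩ v ⟨hv, ⟨hv', h2⟩⟩ huv (Fin.ext heq)
      · simp only [h1, h2, if_true, if_false, Fin.mk.injEq] at heq
        have := (c₁ u).isLt
        omega
      · simp only [h1, h2, if_true, if_false, Fin.mk.injEq] at heq
        have := (c₁ v).isLt
        omega
      · simp only [h1, h2, if_false, Fin.mk.injEq, Nat.add_left_cancel_iff] at heq
        exact h₂ u ⟨hu, ⟨hu', h1⟩⟩ v ⟨hv, ⟨hv', h2⟩⟩ huv (Fin.ext heq)
  obtain ⟨col, h1⟩ := key c A A h
  exact ⟨col, fun u hu v hv => h1 u ⟨hu, hu⟩ v ⟨hv, hv⟩⟩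

theorem result (M : Type) [Semigroup M] [Fintype M] (hM : IsInverse M) (hT : TrivialSubgroups M)
    (C : Set M) (V : Type) [Fintype V] (G : SimpleGraph V) (m : V → M)
    (hm : Function.Surjective m)
    (hG : ∀ u v, ∀ x : M, m u * x * m u = m u → x * m u * x = x → (G.Adj u v ↔ x * m v ∈ C)) :
    G.Colorable (2 ^ (1620 * (Nat.clog 2 ((rank G) ^ 2 + 3)) ^ 6 + 1)) := by
  classical
  let _ : Pool.Agent.Q174.IS.InvSemi M := Pool.Agent.Q174.IS.mkInv hM
  set f : M → Bool := fun z => decide (z ∈ C) with hf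
  have hadj : ∀ u v, (G.Adj u v ↔ (m u)⁻¹ * m v ∈ C) := fun u v =>
    hG u v (m u)⁻¹ (Pool.Agent.Q174.IS.InvSemi.mul_inv_mul _)
      (Pool.Agent.Q174.IS.InvSemi.inv_mul_inv _)
  choose σ hσ using hm
  have hr : rk ℝ (fun x y : M => f (x * y)) ≤ rank G := by
    have h1 := Matrix.rank_submatrix_le (G.adjMatrix ℝ) (fun x : M => σ x⁻¹) (fun y : M => σ y)
    unfold rk rank
    refine le_trans (le_of_eq ?_) h1
    congr 1
    ext x y
    have h2 : G.Adj (σ x⁻¹) (σ y) ↔ x * y ∈ C := by
      rw [hadj, hσ, hσ, Pool.Agent.Q174.IS.inv_inv']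
    simp only [Matrix.of_apply, Matrix.submatrix_apply, SimpleGraph.adjMatrix_apply, hf, h2,
      decide_eq_true_eq]
  have h3 : Prot (fun u v : V => decide (G.Adj u v))
      (1620 * (Nat.clog 2 ((rank G) ^ 2 + 3)) ^ 6 + 1) Set.univ Set.univ := by
    refine (Pool.Agent.Q174.AF.prot_comap (F := fun u v : V => decide (G.Adj u v))
      (F' := fun x y : M => f (x * y)) (fun u => (m u)⁻¹) m (fun u v => ?_)
      (Pool.Agent.Q174.IS.mul_prot hT f)).le ?_
    · simp only [hf, hadj]
    · exact Nat.add_le_add_right (Nat.mul_le_mul_left _ (Nat.pow_le_pow_left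
        (Nat.clog_mono_right 2 (Nat.add_le_add_right (Nat.pow_le_pow_left hr 2) 3)) 6)) 1
  obtain ⟨col, hcol⟩ := colorable_of_prot G (fun u v : V => decide (G.Adj u v))
    (fun u v => decide_eq_true_iff) h3
  exact ⟨SimpleGraph.Coloring.mk col fun {u v} huv =>
    hcol u (Set.mem_univ _) v (Set.mem_univ _) huv⟩

end Pool.Agent.Results.MP_3bd889_lc.InverseSemigroupGraphs
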