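import Pool.Agent.Q174.TD.Graph

/-!
# Chromatic number and rank: elimination of types and of supports of low-degree polynomials

Let `G` be a finite graph (twins are allowed), let `r` be the rank of its adjacency matrix over a
field `K` (`K = ℝ` in the question) and `Φ_k(r) = ∑ i ≤ k, (r choose i) ≤ (r+1)^k`. The functions on
the vertices which are polynomials of degree at most `k` in the columns of the adjacency matrix form
a space of dimension at most `Φ_k(r)`. If in every nonempty set `A` of vertices there is a nonempty,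
however small, subset of chromatic number at most `s` which is the support on `A` of such a
polynomial (for instance a type: all vertices of `A` with a prescribed adjacency to `k` vertices),
then the elimination of these subsets takes at most `Φ_k(r)` steps, as each step makes the space of
polynomials on the remaining vertices smaller.
-/

set_option autoImplicit false

namespace Pool.Agent.Results.MP_3bd889_lc.TypeElimination

open Finset

open Classical in
/-- the rank over `K` of the adjacency matrix of `G` -/
noncomputable def rank (K : Type) [Field K] {V : Type} [Fintype V] (G : SimpleGraph V) : ℕ :=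
  (G.adjMatrix K).rank

open Classical in
/-- the rank over `K` of the adjacency matrix of the subgraph induced on `A` (the entries of the
adjacency matrix outside `A × A` are replaced by `0`) -/
noncomputable def rankOn (K : Type) [Field K] {V : Type} [Fintype V] (G : SimpleGraph V)
    (A : Set V) : ℕ :=
  (Matrix.of fun u v : V => if u ∈ A ∧ v ∈ A ∧ G.Adj u v then (1 : K) else 0).rank

/-- `Φ_k(r) = ∑ i ≤ k, (r choose i)` -/
def Phi (k r : ℕ) : ℕ := ∑ i ∈ range (k + 1), r.choose i

open Classical in
/-- `φ : V → K` is a polynomial of degree at most `k` in the columns of the adjacency matrix: a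
linear combination of the functions `v ↦ [v is adjacent to all vertices in T]`, `|T| ≤ k` -/
def IsPoly (K : Type) [Field K] {V : Type} (G : SimpleGraph V) (k : ℕ) (φ : V → K) : Prop :=
  φ ∈ Submodule.span K {f : V → K | ∃ T : Finset V, T.card ≤ k ∧
    f = fun v => ∏ w ∈ T, if G.Adj v w then (1 : K) else 0}

lemma rank_eq (K : Type) [Field K] {V : Type} [Fintype V] (G : SimpleGraph V) :
    Pool.Agent.Q174.TD.rk K (Pool.Agent.Q174.TD.adj G) = rank K G := by
  classical
  unfold Pool.Agent.Q174.TD.rk rank
  congr 1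
  ext u v
  simp only [Matrix.of_apply, SimpleGraph.adjMatrix_apply, Pool.Agent.Q174.TD.adj_iff]

lemma rankOn_eq (K : Type) [Field K] {V : Type} [Fintype V] (G : SimpleGraph V) (A : Set V) :
    Pool.Agent.Q174.TD.rkInd K G A = rankOn K G A := by
  classical
  unfold Pool.Agent.Q174.TD.rkInd Pool.Agent.Q174.TD.rkOn rankOn
  congr 1
  ext u v
  simp only [Matrix.of_apply, Pool.Agent.Q174.TD.adj_iff]

lemma isPoly_iff (K : Type) [Field K] {V : Type} (G : SimpleGraph V) (k : ℕ) (φ : V → K) :
    Pool.Agent.Q174.TD.Pol K (Pool.Agent.Q174.TD.adj G) k φ ↔ IsPoly K G k φ := by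
  classical
  unfold Pool.Agent.Q174.TD.Pol Pool.Agent.Q174.TD.W IsPoly
  have e : ∀ T : Finset V, Pool.Agent.Q174.TD.mon K (Pool.Agent.Q174.TD.adj G) T =
      fun v => ∏ w ∈ T, if G.Adj v w then (1 : K) else 0 := by
    intro T
    funext v
    unfold Pool.Agent.Q174.TD.mon
    refine Finset.prod_congr rfl fun w _ => ?_
    simp only [Pool.Agent.Q174.TD.adj_iff]
  simp only [e]

theorem result :
    -- (1) supports of polynomials of low degree
    (∀ (K : Type) [Field K] (V : Type) [Fintype V] (G : SimpleGraph V) (k s : ℕ),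
      (∀ A : Set V, A.Nonempty → ∃ φ : V → K, IsPoly K G k φ ∧ (∃ v ∈ A, φ v ≠ 0) ∧
        (G.induce (A ∩ {v | φ v ≠ 0})).Colorable s) →
      G.Colorable (s * Phi k (rank K G))) ∧
    (∀ k r : ℕ, Phi k r ≤ (r + 1) ^ k) ∧
    -- (2) types over at most `k` vertices
    (∀ (K : Type) [Field K] (V : Type) [Fintype V] (G : SimpleGraph V) (k s : ℕ),
      (∀ A : Set V, A.Nonempty → ∃ v ∈ A, ∃ T : Finset V, T.card ≤ k ∧
        (G.induce {u | u ∈ A ∧ ∀ w ∈ T, (G.Adj u w ↔ G.Adj v w)}).Colorable s) →
      G.Colorable (s * Phi k (rank K G))) ∧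
    -- (3) the number of distinct neighbourhoods, if the neighbourhoods can be taught with `k` vertices
    (∀ (K : Type) [Field K] (V : Type) [Fintype V] (G : SimpleGraph V) (k : ℕ),
      (∀ A : Set V, A.Nonempty → ∃ v ∈ A, ∃ T : Finset V, T.card ≤ k ∧
        ∀ u ∈ A, (∀ w ∈ T, (G.Adj u w ↔ G.Adj v w)) → G.neighborSet u = G.neighborSet v) →
      (Set.range G.neighborSet).ncard ≤ Phi k (rank K G)) ∧
    -- (4) the neighbourhoods are closures of at most `k` vertices
    (∀ (K : Type) [Field K] (V : Type) [Fintype V] (G : SimpleGraph V) (k : ℕ)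
      (c : ClosureOperator (Set V)),
      (∀ v, ∃ T : Finset V, T.card ≤ k ∧ G.neighborSet v = c (T : Set V)) →
      (Set.range G.neighborSet).ncard ≤ Phi k (rank K G)) ∧
    -- (5) reduction of the rank on nonempty supports of polynomials of degree at most `k`
    (∀ (K : Type) [Field K] (V : Type) [Fintype V] (G : SimpleGraph V) (k : ℕ),
      (∀ A : Set V, 2 ≤ rankOn K G A → ∃ φ : V → K, IsPoly K G k φ ∧ (∃ v ∈ A, φ v ≠ 0) ∧
        2 * rankOn K G (A ∩ {v | φ v ≠ 0}) ≤ rankOn K G A) →
      G.Colorable (Phi (k * Nat.clog 2 (rank K G)) (rank K G))) := by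
  classical
  have range_eq : ∀ (V : Type) (G : SimpleGraph V), [Fintype V] →
      (Set.range G.neighborSet).ncard = (Set.range (Pool.Agent.Q174.TD.adj G)).ncard := by
    intro V G _
    have h1 : Set.range G.neighborSet =
        (fun f : V → Bool => {w | f w = true}) '' Set.range (Pool.Agent.Q174.TD.adj G) := by
      ext S
      simp only [Set.mem_range, Set.mem_image, exists_exists_eq_and]
      constructor
      · rintro ⟨v, rfl⟩
        refine ⟨v, ?_⟩
        ext w
        exact Pool.Agent.Q174.TD.adj_iff G v w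
      · rintro ⟨v, rfl⟩
        refine ⟨v, ?_⟩
        ext w
        exact (Pool.Agent.Q174.TD.adj_iff G v w).symm
    rw [h1]
    apply Set.ncard_image_of_injective
    intro f g h
    funext w
    have h2 : f w = true ↔ g w = true := Set.ext_iff.mp h w
    cases h3 : f w <;> cases h4 : g w <;> simp_all
  have teach : ∀ (V : Type) (G : SimpleGraph V) (u v : V),
      G.neighborSet u = G.neighborSet v →
        Pool.Agent.Q174.TD.adj G u = Pool.Agent.Q174.TD.adj G v := by
    intro V G u v h
    funext w
    have h2 : G.Adj u w ↔ G.Adj v w := Set.ext_iff.mp h w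
    rw [← Pool.Agent.Q174.TD.adj_iff, ← Pool.Agent.Q174.TD.adj_iff] at h2
    cases h3 : Pool.Agent.Q174.TD.adj G u w <;> cases h4 : Pool.Agent.Q174.TD.adj G v w <;>
      simp_all
  refine ⟨?_, Pool.Agent.Q174.TD.Phi_le_pow, ?_, ?_, ?_, ?_⟩
  · intro K _ V _ G k s h
    have h1 := Pool.Agent.Q174.TD.colorable_le K G k s fun A hA => by
      obtain ⟨φ, hφ, hne, hc⟩ := h A hA
      exact ⟨φ, (isPoly_iff K G k φ).mpr hφ, hne, Pool.Agent.Q174.TD.colOn_of_induce hc⟩
    rw [rank_eq] at h1
    exact h1
  · intro K _ V _ G k s h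
    have h1 := Pool.Agent.Q174.TD.colorable_of_types K G k s fun A hA => by
      obtain ⟨v, hv, T, hT, hc⟩ := h A hA
      exact ⟨v, hv, T, hT, Pool.Agent.Q174.TD.colOn_of_induce hc⟩
    rw [rank_eq] at h1
    exact h1
  · intro K _ V _ G k h
    rw [range_eq, ← rank_eq]
    refine Pool.Agent.Q174.TD.rows_le K _ k fun A hA => ?_
    obtain ⟨v, hv, T, hT, hT'⟩ := h A hA
    refine ⟨v, hv, T, hT, fun u hu hu' => teach V G u v (hT' u hu fun w hw => ?_)⟩
    rw [← Pool.Agent.Q174.TD.adj_iff, ← Pool.Agent.Q174.TD.adj_iff, hu' w hw]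
  · intro K _ V _ G k c h
    rw [range_eq, ← rank_eq]
    refine Pool.Agent.Q174.TD.rows_le K _ k
      (Pool.Agent.Q174.TD.teach_of_closure _ k c (fun S => c.le_closure S) ?_ ?_)
    · intro S S' hSS'
      exact (c.closure_min hSS' (c.isClosed_closure S'))
    · intro v
      obtain ⟨T, hT, hc⟩ := h v
      refine ⟨T, hT, ?_⟩
      rw [← hc]
      ext w
      exact Pool.Agent.Q174.TD.adj_iff G v w
  · intro K _ V _ G k h
    have h1 := Pool.Agent.Q174.TD.colorable_of_halving K G k fun A hA => by
      rw [rankOn_eq] at hA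
      obtain ⟨φ, hφ, hne, hr⟩ := h A hA
      refine ⟨φ, (isPoly_iff K G k φ).mpr hφ, hne, ?_⟩
      rw [rankOn_eq, rankOn_eq]
      exact hr
    rw [rank_eq] at h1
    exact h1

end Pool.Agent.Results.MP_3bd889_lc.TypeElimination
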